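import Pool.Agent.H964.WN.Emb
import Pool.Agent.H964.WN.Cov

/-!
# Exponential metrics of log-correlated fields with small parameter: `1 - ξ Q(ξ)` is of order `ξ^(4/3)`

`K` is a smooth radially symmetric function on `ℝ^d` (`d ≥ 2`) with values in `[0, ∞)`, supported in a
box, with `∫ K² = 1`. The fields `h_n` are the centered Gaussian fields (jointly Gaussian in `n` and
`x`) with the covariances of the white noise integrals
`h_n(x) = ∫∫_{2^{-n} < t < 1} K((y - x)/t) t^{-(d+1)/2} W(dy, dt)`, that is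
`Cov (h_n(x), h_m(y)) = ∫_{2^{-min(n,m)}}^1 (∫ K((z-x)/t) K((z-y)/t) dz) t^{-(d+1)} dt`,
continuous in `x`. The number `λ_n` is a median of the distance between `0` and `e₁` in the box
`(-2, 2)^d` for the metric `exp (ξ h_n) |dx|`, and `Q` is given by `λ_n = 2^{-(1 - ξ Q) n + o(n)}`.

The theorem: there are constants `c, C, ξ₀ > 0` which only depend on `d` and `K` with
`2^{-C ξ^{4/3} n} ≤ λ_n ≤ 2^{-c ξ^{4/3} n}` for all `ξ < ξ₀` and all large `n`. Hence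
`c ξ^{4/3} ≤ 1 - ξ Q(ξ) ≤ C ξ^{4/3}` for `ξ < ξ₀`: the order of magnitude of `1 - ξ Q(ξ)` as `ξ → 0`
is exactly `ξ^{4/3}`, in every dimension `d ≥ 2`, and `1 - ξ Q(ξ) = ξ^{4/3 + o(1)}`.

The proof of the lower bound for `λ_n`: a binary tree of segments subdivides a path (first hitting
points of the perpendicular bisectors); the line averages of the field over the segments are compared
with the weights by the arithmetic-geometric mean and Hölder inequalities with exponent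
`p = ξ^(-4/3)`. The end points of the segments are rounded to anisotropic cells (mesh `p^(-1)` along
the segment and `p^(-1/2)` across it), and the refinements are organised in classes according to the
transversal displacement, so that no logarithm is lost in the entropy.

The proof of the upper bound for `λ_n`: in a plane, every segment is replaced by one of two tents of
slope of order `ξ^(1/3)` according to the sign of the difference of the averages of one layer of the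
field over two test segments in the tents. The layers used in successive generations are independent,
and the expectation of the length of the resulting random path decays like `2^{-c ξ^{4/3} n}`.
-/

set_option autoImplicit false

universe u

namespace Pool.Agent.Results.MP_71c74a_pr.OrderFourThirds

open MeasureTheory ProbabilityTheory Filter Topology

/-- The box `B_r(x) = x + (-r, r)^d`. -/
def box {d : ℕ} (r : ℝ) (x : EuclideanSpace ℝ (Fin d)) : Set (EuclideanSpace ℝ (Fin d)) :=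
  {y | ∀ i, |y i - x i| < r}

/-- The admissible functions `K`: smooth, nonnegative, radially symmetric, supported in a box
`B_{r₀}(0)`, with `∫ K² = 1`. -/
structure Admissible {d : ℕ} (K : EuclideanSpace ℝ (Fin d) → ℝ) : Prop where
  smooth : ContDiff ℝ ((⊤ : ℕ∞) : WithTop ℕ∞) K
  nonneg : ∀ x, 0 ≤ K x
  radial : ∀ x y, ‖x‖ = ‖y‖ → K x = K y
  supp : ∃ r₀ : ℝ, 0 < r₀ ∧ ∀ x, x ∉ box r₀ 0 → K x = 0
  norm : ∫ x, K x ^ 2 = 1

/-- `h n x` is the value at `x` of the field `h_n`. The fields are centered and jointly Gaussian, with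
the covariances of the white noise integrals of the problem, and `h_n` is continuous almost surely.
(For `n = 0` this is the field `0`.) -/
structure IsField {d : ℕ} (K : EuclideanSpace ℝ (Fin d) → ℝ) {Ω : Type u} [MeasurableSpace Ω]
    (P : Measure Ω) (h : ℕ → EuclideanSpace ℝ (Fin d) → Ω → ℝ) : Prop where
  measurable : ∀ n x, Measurable (h n x)
  gaussian : IsGaussianProcess (fun p : ℕ × EuclideanSpace ℝ (Fin d) => h p.1 p.2) P
  mean : ∀ n x, ∫ ω, h n x ω ∂P = 0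
  cov : ∀ n x m y, covariance (h n x) (h m y) P =
    ∫ t in ((1 / 2 : ℝ) ^ (min n m))..1, (∫ z, K (t⁻¹ • (z - x)) * K (t⁻¹ • (z - y))) / t ^ (d + 1)
  continuous : ∀ n, ∀ᵐ ω ∂P, Continuous fun x => h n x ω

/-- Piecewise continuously differentiable paths on `[0, 1]`: continuous, and there is a finite set `s`
such that the path is continuously differentiable on every closed subinterval whose interior does not
meet `s`. -/
structure PiecewiseC1 {d : ℕ} (γ : ℝ → EuclideanSpace ℝ (Fin d)) : Prop where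
  cont : ContinuousOn γ (Set.Icc 0 1)
  pieces : ∃ s : Finset ℝ, ∀ a b : ℝ, 0 ≤ a → a < b → b ≤ 1 → Disjoint (Set.Ioo a b) (s : Set ℝ) →
    ContDiffOn ℝ 1 γ (Set.Icc a b)

/-- The length `∫₀¹ exp (ξ g (γ t)) |γ' t| dt`. -/
noncomputable def length {d : ℕ} (ξ : ℝ) (g : EuclideanSpace ℝ (Fin d) → ℝ)
    (γ : ℝ → EuclideanSpace ℝ (Fin d)) : ℝ :=
  ∫ t in (0 : ℝ)..1, Real.exp (ξ * g (γ t)) * ‖deriv γ t‖

/-- The distance `D(z, w; U)`: the infimum of the lengths of the piecewise continuously differentiable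
paths from `z` to `w` in `U`. -/
noncomputable def dist {d : ℕ} (ξ : ℝ) (g : EuclideanSpace ℝ (Fin d) → ℝ)
    (z w : EuclideanSpace ℝ (Fin d)) (U : Set (EuclideanSpace ℝ (Fin d))) : ℝ :=
  sInf {l | ∃ γ : ℝ → EuclideanSpace ℝ (Fin d), PiecewiseC1 γ ∧ γ 0 = z ∧ γ 1 = w ∧
    (∀ t ∈ Set.Icc (0 : ℝ) 1, γ t ∈ U) ∧ length ξ g γ = l}

/-- `m` is a median of `X`. -/
def IsMedian {Ω : Type u} [MeasurableSpace Ω] (P : Measure Ω) (X : Ω → ℝ) (m : ℝ) : Prop :=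
  1 / 2 ≤ P {ω | X ω ≤ m} ∧ 1 / 2 ≤ P {ω | m ≤ X ω}

/-- `lam n` is, for `n ≥ 1`, a median of `D_n(0, e₁; B_2(0))`. -/
def Medians {d : ℕ} (hd : 2 ≤ d) {Ω : Type u} [MeasurableSpace Ω] (P : Measure Ω)
    (h : ℕ → EuclideanSpace ℝ (Fin d) → Ω → ℝ) (ξ : ℝ) (lam : ℕ → ℝ) : Prop :=
  ∀ n, 1 ≤ n → IsMedian P
    (fun ω => dist ξ (fun x => h n x ω) 0 (EuclideanSpace.single ⟨0, by omega⟩ 1) (box 2 0)) (lam n)

/-- `Q` is the exponent of the sequence `lam`: `lam n = 2^{-(1 - ξ Q) n + o(n)}`. -/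
def IsExponent (ξ : ℝ) (lam : ℕ → ℝ) (Q : ℝ) : Prop :=
  ∃ r : ℕ → ℝ, r =o[atTop] (fun n : ℕ => (n : ℝ)) ∧
    ∀ᶠ n : ℕ in atTop, lam n = (2 : ℝ) ^ (-(1 - ξ * Q) * n + r n)

section aux

variable {d : ℕ}

theorem norm_le_of_box {r : ℝ} (hr : 0 ≤ r) {x : EuclideanSpace ℝ (Fin d)} (hx : x ∈ box r 0) :
    ‖x‖ ≤ d * r := by
  rw [EuclideanSpace.norm_eq, Real.sqrt_le_left (by positivity)]
  have h2 : ∀ i ∈ Finset.univ, ‖x i‖ ^ 2 ≤ r ^ 2 := by
    intro i _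
    have h1 := (hx i).le
    simp only [PiLp.zero_apply, sub_zero] at h1
    rw [Real.norm_eq_abs]
    gcongr
  calc ∑ i, ‖x i‖ ^ 2 ≤ ∑ i : Fin d, r ^ 2 := Finset.sum_le_sum h2
    _ = d * r ^ 2 := by simp
    _ ≤ (d * r) ^ 2 := by
        rw [mul_pow]
        have : (d : ℝ) ≤ (d : ℝ) ^ 2 := by
          rcases Nat.eq_zero_or_pos d with h0 | h0
          · rw [h0]; simp
          · have : (1 : ℝ) ≤ d := by exact_mod_cast h0
            nlinarith
        gcongr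

theorem mem_box_of_norm {r : ℝ} {x : EuclideanSpace ℝ (Fin d)} (hx : ‖x‖ < r) : x ∈ box r 0 := by
  intro i
  simp only [PiLp.zero_apply, sub_zero]
  have h1 : ‖x i‖ ≤ ‖x‖ := PiLp.norm_apply_le x i
  rw [Real.norm_eq_abs] at h1
  linarith

theorem pw_iff (γ : ℝ → EuclideanSpace ℝ (Fin d)) : PiecewiseC1 γ ↔ Pool.Agent.H964.W.PwC1 γ :=
  ⟨fun h => ⟨h.cont, h.pieces⟩, fun h => ⟨h.cont, h.pw⟩⟩

theorem length_eq (ξ : ℝ) (g : EuclideanSpace ℝ (Fin d) → ℝ) (γ : ℝ → EuclideanSpace ℝ (Fin d)) :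
    length ξ g γ = Pool.Agent.H964.W.len ξ g γ := rfl

variable {Ω : Type u} [MeasurableSpace Ω] {P : Measure Ω}

theorem median_ge {X : Ω → ℝ} {m x : ℝ} (hm : IsMedian P X m) {A : Set Ω}
    (hA : P A ≤ ENNReal.ofReal (1 / 4)) (hsub : ∀ ω, X ω < x → ω ∈ A) : x ≤ m := by
  by_contra hc
  push Not at hc
  have h1 : P {ω | X ω ≤ m} ≤ P A := measure_mono fun ω hω => hsub ω (lt_of_le_of_lt hω hc)
  have h2 := (hm.1.trans h1).trans hA
  have h3 : ENNReal.ofReal (1 / 4) < 1 / 2 := by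
    rw [show (1 / 2 : ENNReal) = ENNReal.ofReal (1 / 2) by
      rw [ENNReal.ofReal_div_of_pos (by norm_num)]; simp]
    exact (ENNReal.ofReal_lt_ofReal_iff (by norm_num)).2 (by norm_num)
  exact absurd h2 (not_le.2 h3)

theorem median_le {X : Ω → ℝ} {m x : ℝ} (hm : IsMedian P X m) {A : Set Ω}
    (hA : P A ≤ ENNReal.ofReal (1 / 4)) (hsub : ∀ ω, x < X ω → ω ∈ A) : m ≤ x := by
  by_contra hc
  push Not at hc
  have h1 : P {ω | m ≤ X ω} ≤ P A := measure_mono fun ω hω => hsub ω (lt_of_lt_of_le hc hω)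
  have h2 := (hm.2.trans h1).trans hA
  have h3 : ENNReal.ofReal (1 / 4) < 1 / 2 := by
    rw [show (1 / 2 : ENNReal) = ENNReal.ofReal (1 / 2) by
      rw [ENNReal.ofReal_div_of_pos (by norm_num)]; simp]
    exact (ENNReal.ofReal_lt_ofReal_iff (by norm_num)).2 (by norm_num)
  exact absurd h2 (not_le.2 h3)

theorem dist_set_bdd (ξ : ℝ) (g : EuclideanSpace ℝ (Fin d) → ℝ) (z w : EuclideanSpace ℝ (Fin d))
    (U : Set (EuclideanSpace ℝ (Fin d))) : BddBelow {l | ∃ γ : ℝ → EuclideanSpace ℝ (Fin d),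
      PiecewiseC1 γ ∧ γ 0 = z ∧ γ 1 = w ∧ (∀ t ∈ Set.Icc (0 : ℝ) 1, γ t ∈ U) ∧ length ξ g γ = l} := by
  refine ⟨0, ?_⟩
  rintro l ⟨γ, _, _, _, _, rfl⟩
  exact Pool.Agent.H964.W.len_nonneg ξ g γ

/-- the segment from `0` to `e₁` is in the box -/
theorem dist_set_ne (ξ : ℝ) (g : EuclideanSpace ℝ (Fin d) → ℝ) (i₀ : Fin d) :
    {l | ∃ γ : ℝ → EuclideanSpace ℝ (Fin d), PiecewiseC1 γ ∧ γ 0 = 0 ∧
      γ 1 = EuclideanSpace.single i₀ 1 ∧ (∀ t ∈ Set.Icc (0 : ℝ) 1, γ t ∈ box 2 0) ∧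
      length ξ g γ = l}.Nonempty := by
  refine ⟨_, Pool.Agent.H964.W.pt 0 (EuclideanSpace.single i₀ 1), ?_, ?_, ?_, ?_, rfl⟩
  · exact (pw_iff _).2 (Pool.Agent.H964.W.pt_pwC1 _ _)
  · exact Pool.Agent.H964.W.pt_zero _ _
  · exact Pool.Agent.H964.W.pt_one _ _
  · intro t ht
    apply mem_box_of_norm
    have : ‖Pool.Agent.H964.W.pt (0 : EuclideanSpace ℝ (Fin d)) (EuclideanSpace.single i₀ 1) t‖ ≤ 1 :=
      Pool.Agent.H964.W.norm_pt_le (by simp) (by simp) ht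
    linarith

end aux

/-- bounds for the exponent -/
theorem exponent_bounds {ξ Q a b : ℝ} {lam : ℕ → ℝ} (hQ : IsExponent ξ lam Q)
    (hlam : ∀ᶠ n : ℕ in atTop, (2 : ℝ) ^ (-(a * n)) ≤ lam n ∧ lam n ≤ (2 : ℝ) ^ (-(b * n))) :
    b ≤ 1 - ξ * Q ∧ 1 - ξ * Q ≤ a := by
  obtain ⟨r, hr, hl⟩ := hQ
  have h1 : Tendsto (fun n : ℕ => r n / n) atTop (𝓝 0) := hr.tendsto_div_nhds_zero
  have h2 : ∀ᶠ n : ℕ in atTop, b ≤ 1 - ξ * Q - r n / n ∧ 1 - ξ * Q - r n / n ≤ a := by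
    filter_upwards [hlam, hl, eventually_ge_atTop 1] with n hn he h1n
    have hn0 : (0 : ℝ) < n := by exact_mod_cast h1n
    rw [he, Real.rpow_le_rpow_left_iff (by norm_num), Real.rpow_le_rpow_left_iff (by norm_num)] at hn
    have e : 1 - ξ * Q - r n / n = -(-(1 - ξ * Q) * n + r n) / n := by field_simp; ring
    rw [e]
    constructor
    · rw [le_div_iff₀ hn0]; linarith [hn.2]
    · rw [div_le_iff₀ hn0]; linarith [hn.1]
  have h3 : Tendsto (fun n : ℕ => 1 - ξ * Q - r n / n) atTop (𝓝 (1 - ξ * Q)) := by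
    simpa using tendsto_const_nhds.sub h1
  exact ⟨ge_of_tendsto h3 (h2.mono fun _ h => h.1), le_of_tendsto h3 (h2.mono fun _ h => h.2)⟩

/-- There are positive constants `c, C, ξ₀`, which only depend on `d` and `K`, such that, for the
medians `λ_n` of `D_n(0, e₁; B_2(0))`, `2^{-C ξ^{4/3} n} ≤ λ_n ≤ 2^{-c ξ^{4/3} n}` for `ξ < ξ₀` and all
large `n`, and `c ξ^{4/3} ≤ 1 - ξ Q ≤ C ξ^{4/3}` for `ξ < ξ₀`. In particular `1 - ξ Q(ξ)` is of order
`ξ^{4/3}` as `ξ → 0`, and `1 - ξ Q(ξ) = ξ^{4/3 + o(1)}`. -/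
theorem result {d : ℕ} (hd : 2 ≤ d) (K : EuclideanSpace ℝ (Fin d) → ℝ) (hK : Admissible K) :
    ∃ c C ξ₀ : ℝ, 0 < c ∧ 0 < C ∧ 0 < ξ₀ ∧
      ∀ (Ω : Type u) [MeasurableSpace Ω] (P : Measure Ω) (h : ℕ → EuclideanSpace ℝ (Fin d) → Ω → ℝ),
        IsField K P h →
        (∀ ξ : ℝ, 0 < ξ → ξ < ξ₀ → ∀ lam : ℕ → ℝ, Medians hd P h ξ lam →
          (∀ᶠ n : ℕ in atTop, (2 : ℝ) ^ (-(C * ξ ^ (4 / 3 : ℝ) * n)) ≤ lam n ∧
            lam n ≤ (2 : ℝ) ^ (-(c * ξ ^ (4 / 3 : ℝ) * n))) ∧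
          ∀ Q : ℝ, IsExponent ξ lam Q →
            c * ξ ^ (4 / 3 : ℝ) ≤ 1 - ξ * Q ∧ 1 - ξ * Q ≤ C * ξ ^ (4 / 3 : ℝ)) ∧
        (∀ Q : ℝ → ℝ, (∀ ξ : ℝ, 0 < ξ → ∃ lam : ℕ → ℝ, Medians hd P h ξ lam ∧ IsExponent ξ lam (Q ξ)) →
          (fun ξ => 1 - ξ * Q ξ) =Θ[𝓝[>] 0] (fun ξ => ξ ^ (4 / 3 : ℝ)) ∧
          Tendsto (fun ξ => Real.log (1 - ξ * Q ξ) / Real.log ξ) (𝓝[>] 0) (𝓝 (4 / 3))) := by
  have hM : Pool.Agent.H964.W.Mol K := by
    refine ⟨hK.smooth, hK.nonneg, hK.radial, ?_, hK.norm⟩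
    obtain ⟨r₀, hr₀, hs⟩ := hK.supp
    refine ⟨r₀, hr₀, fun x hx => hs x fun hc => hx fun i => ?_⟩
    have := hc i
    simpa using this
  obtain ⟨i₀, hi₀⟩ : ∃ i₀ : Fin d, i₀ = ⟨0, by omega⟩ := ⟨_, rfl⟩
  obtain ⟨i₁, hi₁⟩ : ∃ i₁ : Fin d, i₁ = ⟨1, by omega⟩ := ⟨_, rfl⟩
  have hi : i₀ ≠ i₁ := by
    rw [hi₀, hi₁]
    intro hcon
    rw [Fin.mk.injEq] at hcon
    omega
  obtain ⟨C, ρ₀, hκ⟩ := Pool.Agent.H964.W.ker_exists hM i₀
  have hbd := Pool.Agent.H964.W.bd_nonneg d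
  have hxi := Pool.Agent.H964.W.xiU_pos hκ
  have hcU := Pool.Agent.H964.W.cU_pos hκ
  obtain ⟨c, hcdef⟩ : ∃ c, c = Pool.Agent.H964.W.cU C ρ₀ := ⟨_, rfl⟩
  obtain ⟨C', hCdef⟩ : ∃ C', C' = 2 * Pool.Agent.H964.W.bd d + 6 := ⟨_, rfl⟩
  have hc0 : 0 < c := by rw [hcdef]; exact hcU
  have hC0 : 0 < C' := by rw [hCdef]; positivity
  obtain ⟨ξ₀, hξdef⟩ : ∃ ξ₀, ξ₀ = min (1 / 1000)
    (min (1 / (2 * Pool.Agent.H964.W.bd d + 4)) (Pool.Agent.H964.W.xiU C ρ₀)) := ⟨_, rfl⟩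
  have hξ₀ : 0 < ξ₀ := by
    rw [hξdef]
    apply lt_min (by norm_num)
    exact lt_min (by positivity) hxi
  refine ⟨c, C', ξ₀, hc0, hC0, hξ₀, ?_⟩
  intro Ω _ P h hh
  have hW : Pool.Agent.H964.W.WNF P (Pool.Agent.H964.W.kap0 K i₀) h := by
    refine ⟨⟨fun p => hh.measurable p.1 p.2, hh.gaussian, fun p => hh.mean p.1 p.2⟩, ?_⟩
    intro n x m y
    rw [hh.cov, Pool.Agent.H964.W.cov_eq hM i₀ hκ]
  have main : ∀ ξ : ℝ, 0 < ξ → ξ < ξ₀ → ∀ lam : ℕ → ℝ, Medians hd P h ξ lam →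
      (∀ᶠ n : ℕ in atTop, (2 : ℝ) ^ (-(C' * ξ ^ (4 / 3 : ℝ) * n)) ≤ lam n ∧
        lam n ≤ (2 : ℝ) ^ (-(c * ξ ^ (4 / 3 : ℝ) * n))) ∧
      ∀ Q : ℝ, IsExponent ξ lam Q →
        c * ξ ^ (4 / 3 : ℝ) ≤ 1 - ξ * Q ∧ 1 - ξ * Q ≤ C' * ξ ^ (4 / 3 : ℝ) := by
    intro ξ hξ hξ1 lam hlam
    have b1 : ξ ≤ 1 / 1000 := by
      have : ξ₀ ≤ 1 / 1000 := by rw [hξdef]; exact min_le_left _ _
      linarith
    have b2 : ξ ≤ 1 / (2 * Pool.Agent.H964.W.bd d + 4) := by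
      have : ξ₀ ≤ 1 / (2 * Pool.Agent.H964.W.bd d + 4) := by
        rw [hξdef]; exact (min_le_right _ _).trans (min_le_left _ _)
      linarith
    have b3 : ξ < Pool.Agent.H964.W.xiU C ρ₀ := by
      have : ξ₀ ≤ Pool.Agent.H964.W.xiU C ρ₀ := by
        rw [hξdef]; exact (min_le_right _ _).trans (min_le_right _ _)
      linarith
    have L := Pool.Agent.H964.W.lower_bound hκ hW i₀ (R := d * 2) (by positivity) hξ b1 b2 hh.continuous
    have U := Pool.Agent.H964.W.upper_bound hκ hW hi hξ b3 hh.continuous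
    rw [← hCdef] at L
    rw [← hcdef] at U
    have hev : ∀ᶠ n : ℕ in atTop, (2 : ℝ) ^ (-(C' * ξ ^ (4 / 3 : ℝ) * n)) ≤ lam n ∧
        lam n ≤ (2 : ℝ) ^ (-(c * ξ ^ (4 / 3 : ℝ) * n)) := by
      filter_upwards [L, U, eventually_ge_atTop 1] with n l1 l2 hn1
      have hmed := hlam n hn1
      rw [← hi₀] at hmed
      constructor
      · apply median_ge hmed l1
        intro ω hω
        obtain ⟨l, ⟨γ, g1, g2, g3, g4, rfl⟩, g5⟩ := exists_lt_of_csInf_lt (dist_set_ne ξ _ i₀) hω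
        refine ⟨γ, ((pw_iff γ).1 g1).isPath, g2, g3, ?_, g5⟩
        intro t ht
        exact norm_le_of_box (by norm_num) (g4 t ht)
      · apply median_le hmed l2
        intro ω hω hcon
        obtain ⟨γ, g1, g2, g3, g4, g5⟩ := hcon
        have h5 : dist ξ (fun x => h n x ω) 0 (EuclideanSpace.single i₀ 1) (box 2 0) ≤
            length ξ (fun x => h n x ω) γ := by
          apply csInf_le (dist_set_bdd ξ _ _ _ _)
          refine ⟨γ, (pw_iff γ).2 g1, g2, g3, ?_, rfl⟩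
          intro t ht
          apply mem_box_of_norm
          have := g4 t ht
          linarith
        rw [length_eq] at h5
        linarith
    exact ⟨hev, fun Q hQ => exponent_bounds hQ hev⟩
  refine ⟨main, ?_⟩
  intro Q hQ
  have hbound : ∀ᶠ ξ : ℝ in 𝓝[>] 0, 0 < ξ ∧ ξ < 1 ∧ c * ξ ^ (4 / 3 : ℝ) ≤ 1 - ξ * Q ξ ∧
      1 - ξ * Q ξ ≤ C' * ξ ^ (4 / 3 : ℝ) := by
    have hmem : Set.Ioo (0 : ℝ) (min ξ₀ 1) ∈ 𝓝[>] (0 : ℝ) := Ioo_mem_nhdsGT (lt_min hξ₀ one_pos)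
    filter_upwards [hmem] with ξ hξ
    obtain ⟨lam, hlam, hex⟩ := hQ ξ hξ.1
    have h1 := (main ξ hξ.1 (lt_of_lt_of_le hξ.2 (min_le_left _ _)) lam hlam).2 (Q ξ) hex
    exact ⟨hξ.1, lt_of_lt_of_le hξ.2 (min_le_right _ _), h1.1, h1.2⟩
  constructor
  · constructor
    · apply Asymptotics.IsBigO.of_bound C'
      filter_upwards [hbound] with ξ hξ
      obtain ⟨h1, h2, h3, h4⟩ := hξ
      have h5 : 0 < ξ ^ (4 / 3 : ℝ) := by positivity
      have h6 : 0 < c * ξ ^ (4 / 3 : ℝ) := by positivity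
      rw [Real.norm_of_nonneg (by linarith), Real.norm_of_nonneg h5.le]
      exact h4
    · apply Asymptotics.IsBigO.of_bound c⁻¹
      filter_upwards [hbound] with ξ hξ
      obtain ⟨h1, h2, h3, h4⟩ := hξ
      have h5 : 0 < ξ ^ (4 / 3 : ℝ) := by positivity
      have h6 : 0 < c * ξ ^ (4 / 3 : ℝ) := by positivity
      rw [Real.norm_of_nonneg h5.le, Real.norm_of_nonneg (by linarith)]
      rw [inv_mul_eq_div, le_div_iff₀ hc0]
      linarith
  · have hlog : Tendsto (fun ξ : ℝ => Real.log ξ) (𝓝[>] 0) atBot := Real.tendsto_log_nhdsGT_zero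
    have hz : ∀ a : ℝ, Tendsto (fun ξ : ℝ => a / Real.log ξ + 4 / 3) (𝓝[>] 0) (𝓝 (4 / 3)) := by
      intro a
      have h1 : Tendsto (fun ξ : ℝ => a / Real.log ξ) (𝓝[>] 0) (𝓝 0) :=
        hlog.const_div_atBot a
      simpa using h1.add_const (4 / 3 : ℝ)
    apply tendsto_of_tendsto_of_tendsto_of_le_of_le' (hz (Real.log C')) (hz (Real.log c))
    · filter_upwards [hbound] with ξ hξ
      obtain ⟨h1, h2, h3, h4⟩ := hξ
      have h6 : 0 < c * ξ ^ (4 / 3 : ℝ) := by positivity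
      have h7 : Real.log ξ < 0 := Real.log_neg h1 h2
      have h8 : Real.log (1 - ξ * Q ξ) ≤ Real.log (C' * ξ ^ (4 / 3 : ℝ)) :=
        Real.log_le_log (by linarith) h4
      rw [Real.log_mul hC0.ne' (by positivity), Real.log_rpow h1] at h8
      have h9 : Real.log C' / Real.log ξ + 4 / 3 = (Real.log C' + 4 / 3 * Real.log ξ) / Real.log ξ := by
        have := h7.ne
        field_simp
      rw [h9]
      exact div_le_div_of_nonpos_of_le h7.le h8
    · filter_upwards [hbound] with ξ hξ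
      obtain ⟨h1, h2, h3, h4⟩ := hξ
      have h6 : 0 < c * ξ ^ (4 / 3 : ℝ) := by positivity
      have h7 : Real.log ξ < 0 := Real.log_neg h1 h2
      have h8 : Real.log (c * ξ ^ (4 / 3 : ℝ)) ≤ Real.log (1 - ξ * Q ξ) := Real.log_le_log h6 h3
      rw [Real.log_mul hc0.ne' (by positivity), Real.log_rpow h1] at h8
      have h9 : Real.log c / Real.log ξ + 4 / 3 = (Real.log c + 4 / 3 * Real.log ξ) / Real.log ξ := by
        have := h7.ne
        field_simp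
      rw [h9]
      exact div_le_div_of_nonpos_of_le h7.le h8

end Pool.Agent.Results.MP_71c74a_pr.OrderFourThirds
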